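import Mathlib

/-! Definitions for MP_914893_an: slices and the diametral local diameter two property. -/

namespace Pool.Agent.Work.MP_914893_an

variable (X : Type*) [NormedAddCommGroup X] [NormedSpace ℝ X]

/-- The slice of the closed unit ball of `X` given by the functional `f` and the depth `α`. -/
def ballSlice (f : StrongDual ℝ X) (α : ℝ) : Set X :=
  {x : X | ‖x‖ ≤ 1 ∧ f x > sSup (f '' Metric.closedBall 0 1) - α}

/-- The diametral local diameter two property of `X`. -/
def DLD2P : Prop :=
  ∀ f : StrongDual ℝ X, f ≠ 0 → ∀ α : ℝ, 0 < α →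
    ∀ x ∈ ballSlice X f α, ‖x‖ = 1 → ∀ ε : ℝ, 0 < ε → ∃ y ∈ ballSlice X f α, ‖x - y‖ > 2 - ε

end Pool.Agent.Work.MP_914893_an
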