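import Pool.Agent.Work.MP_914893_an.Final
import Pool.Agent.Work.MP_914893_an.Hedge.Defs

-- merged part: Pool.Agent.Work.MP_914893_an.Hedge.Step
section
/-! The iteration argument for a norming dual pair, using slices only. -/

open Set Metric

namespace Pool.Agent.Work.MP_914893_an

variable {X Y : Type*} [NormedAddCommGroup X] [NormedSpace ℝ X] [NormedAddCommGroup Y]
  [NormedSpace ℝ Y]

/-- Every point of the unit sphere has almost diametral points in each slice containing it. -/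
def SliceDelta (B : X →ₗ[ℝ] Y →ₗ[ℝ] ℝ) : Prop :=
  ∀ x : X, ‖x‖ = 1 → ∀ (y : Y) (a : ℝ), a < B x y → ∀ σ > 0,
    ∃ x' : X, ‖x'‖ ≤ 1 ∧ a < B x' y ∧ 2 - σ < ‖x - x'‖

variable {B : X →ₗ[ℝ] Y →ₗ[ℝ] ℝ}

theorem SuperDelta.sliceDelta (h : SuperDelta B) : SliceDelta B := by
  intro x hx y a ha σ hσ
  obtain ⟨x', h1, h2, h3⟩ := h x hx {y} (finite_singleton y) (min σ (B x y - a))
    (lt_min hσ (sub_pos.2 ha))
  have h4 := (abs_lt.1 (h2 y rfl)).1
  have h5 := min_le_left σ (B x y - a)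
  have h6 := min_le_right σ (B x y - a)
  exact ⟨x', h1, by linarith only [h4, h6], by linarith⟩

theorem slice_step (hB : Norming B) (hD : SliceDelta B) {x xj : X} {z : Y} (hx : ‖x‖ ≤ 1)
    (hxj : ‖xj‖ ≤ 1) (hz : ‖z‖ ≤ 1) {η α β : ℝ} (hη : 0 < η) (hβ : 0 < β) (hη1 : η ≤ 1 / 4)
    (hηβ : 16 * η ≤ β) (h1 : 1 - η < B x z) (h2 : α + β < B xj z) (φ : Y) {M : ℝ}
    (hφ : ‖φ‖ ≤ M) :
    ∃ (x' : X) (γ : Y), ‖x'‖ ≤ 1 ∧ ‖γ‖ ≤ 1 ∧ B x' γ < -1 + η ∧ α < B xj γ ∧
      B x φ - ((η + 16 * η / β) * M + η) < B x' φ := by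
  set s := 4 * η / β with hs
  have hs0 : 0 < s := by positivity
  have hsβ : s * β = 4 * η := by rw [hs]; field_simp
  have hs1 : s ≤ 1 / 4 := by
    rw [hs, div_le_iff₀ hβ]; linarith only [hηβ]
  set u := (1 - s) • x + s • xj with hu
  have hBu : ∀ y, B u y = (1 - s) * B x y + s * B xj y := fun y => by simp [hu]
  have hN1 : ‖u‖ ≤ 1 := by
    calc ‖u‖ ≤ ‖(1 - s) • x‖ + ‖s • xj‖ := norm_add_le _ _
      _ = (1 - s) * ‖x‖ + s * ‖xj‖ := by
        rw [norm_smul, norm_smul, Real.norm_of_nonneg (by linarith only [hη, hη1, hs1]), Real.norm_of_nonneg hs0.le]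
      _ ≤ (1 - s) * 1 + s * 1 := by gcongr; linarith only [hη, hη1, hs1]
      _ = 1 := by ring
  have hN2 : (1 - s) * B x z + s * B xj z ≤ ‖u‖ := by
    rw [← hBu]; exact (le_abs_self _).trans (hB.abs_le_left u hz)
  have hxjz := (abs_le.1 (hB.abs_le_one hxj hz)).1
  have hN3 : 1 - η - 2 * s ≤ ‖u‖ := by linarith only [hN2, hη, h1, hs0, hη1, hs1, hxjz, mul_pos_of_neg_of_neg (Mathlib.Tactic.Linarith.sub_neg_of_lt hη) (Mathlib.Tactic.Linarith.sub_neg_of_lt h1), mul_pos_of_neg_of_neg (Mathlib.Tactic.Linarith.sub_neg_of_lt hη) (Mathlib.Tactic.Linarith.sub_neg_of_lt hs0), mul_nonneg_of_nonpos_of_nonpos (Mathlib.Tactic.Linarith.sub_nonpos_of_le hη1) (le_of_lt (Mathlib.Tactic.Linarith.sub_neg_of_lt h1)), mul_nonneg_of_nonpos_of_nonpos (le_of_lt (Mathlib.Tactic.Linarith.sub_neg_of_lt h1)) (Mathlib.Tactic.Linarith.sub_nonpos_of_le hs1), mul_nonneg_of_nonpos_of_nonpos (le_of_lt (Mathlib.Tactic.Linarith.sub_neg_of_lt hs0))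 (Mathlib.Tactic.Linarith.sub_nonpos_of_le hxjz)]
  have hN0 : 0 < ‖u‖ := by linarith only [hη, hη1, hs1, hN3]
  set u' := ‖u‖⁻¹ • u with hu'
  have hu'1 : ‖u'‖ = 1 := norm_smul_inv_norm (norm_pos_iff.1 hN0)
  have huu' : u = ‖u‖ • u' := by rw [hu', smul_inv_smul₀ hN0.ne']
  obtain ⟨x', hx'1, hx'2, hx'3⟩ := hD u' hu'1 φ (B u' φ - η) (by linarith only [hη]) (η / 2) (half_pos hη)
  obtain ⟨γ, hγ1, hγ2⟩ := hB.left (u' - x') (η / 2) (half_pos hη)
  rw [map_sub, LinearMap.sub_apply] at hγ2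
  have e1 := abs_le.1 (hB.abs_le_one hu'1.le hγ1)
  have e2 := abs_le.1 (hB.abs_le_one hx'1 hγ1)
  have e3 := abs_le.1 (hB.abs_le_one hx hγ1)
  refine ⟨x', γ, hx'1, hγ1, by linarith only [hx'3, hγ2, e1], ?_, ?_⟩
  · have e4 : B u γ = ‖u‖ * B u' γ := by
      conv_lhs => rw [huu']
      simp
    have e5 : ‖u‖ - η ≤ B u γ := by rw [e4]; (refine le_of_not_gt fun h_nl => ?_; linarith only [h_nl, e2, hη, hx'3, hγ2, hη1, hN1, e1, mul_pos_of_neg_of_neg (Mathlib.Tactic.Linarith.sub_neg_of_lt hη) (Mathlib.Tactic.Linarith.sub_neg_of_lt hx'3), mul_pos_of_neg_of_neg (Mathlib.Tactic.Linarith.sub_neg_of_lt hη) (Mathlib.Tactic.Linarith.sub_neg_of_lt hγ2), mul_pos_of_neg_of_neg (Mathlib.Tactic.Linarith.sub_neg_of_lt hη) (Mathlib.Tactic.Linarith.sub_neg_of_lt h_nl), mul_nonneg_of_nonpos_of_nonpos (Mathlib.Tactic.Linarith.sub_nonpos_of_le hη1) (le_of_lt (Mathlib.Tactic.Linarith.sub_neg_of_lt hx'3)), mul_nonneg_of_nonpos_of_nonpos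 (Mathlib.Tactic.Linarith.sub_nonpos_of_le hη1) (le_of_lt (Mathlib.Tactic.Linarith.sub_neg_of_lt hγ2)), mul_nonneg_of_nonpos_of_nonpos (Mathlib.Tactic.Linarith.sub_nonpos_of_le hη1) (le_of_lt (Mathlib.Tactic.Linarith.sub_neg_of_lt h_nl)), mul_nonneg_of_nonpos_of_nonpos (Mathlib.Tactic.Linarith.sub_nonpos_of_le hN1) (Mathlib.Tactic.Linarith.sub_nonpos_of_le e1.right)])
    rw [hBu] at e5
    have e6 : s * α < s * B xj γ := by (refine lt_of_not_ge fun h_nl => ?_; linarith only [h_nl, hsβ, hη, hηβ, h1, h2, hβ, hN2, e3, e5, mul_pos_of_neg_of_neg (Mathlib.Tactic.Linarith.sub_neg_of_lt hη) (Mathlib.Tactic.Linarith.sub_neg_of_lt hη), mul_nonneg_of_nonpos_of_nonpos (le_of_lt (Mathlib.Tactic.Linarith.sub_neg_of_lt hη)) (Mathlib.Tactic.Linarith.sub_nonpos_of_le hηβ), mul_pos_of_neg_of_neg (Mathlib.Tactic.Linarith.sub_neg_of_lt hη) (Mathlib.Tactic.Linarith.sub_neg_of_lt h1), mul_pos_of_neg_of_neg (Mathlib.Tactic.Linarith.sub_neg_of_lt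 hη) (Mathlib.Tactic.Linarith.sub_neg_of_lt h2), Mathlib.Tactic.Linarith.mul_zero_eq (Mathlib.Tactic.Linarith.sub_neg_of_lt hη) (sub_eq_zero_of_eq hsβ), Mathlib.Tactic.Linarith.mul_zero_eq (Mathlib.Tactic.Linarith.sub_neg_of_lt hβ) (sub_eq_zero_of_eq hsβ), mul_nonneg_of_nonpos_of_nonpos (le_of_lt (Mathlib.Tactic.Linarith.sub_neg_of_lt hβ)) (Mathlib.Tactic.Linarith.sub_nonpos_of_le hN2), mul_nonneg_of_nonpos_of_nonpos (le_of_lt (Mathlib.Tactic.Linarith.sub_neg_of_lt hβ)) (Mathlib.Tactic.Linarith.sub_nonpos_of_le e3.right), mul_nonneg_of_nonpos_of_nonpos (le_of_lt (Mathlib.Tactic.Linarith.sub_neg_of_lt hβ)) (Mathlib.Tactic.Linarith.sub_nonpos_of_le e5), mul_nonneg_of_nonpos_of_nonpos (le_of_lt (Mathlib.Tactic.Linarith.sub_neg_of_lt hβ)) (Mathlib.Tactic.Linarith.sub_nonpos_of_le h_nl), mul_nonneg_of_nonpos_of_nonpos (Mathlib.Tactic.Linarith.sub_nonpos_of_le hηβ) (le_of_lt (Mathlib.Tactic.Linarith.sub_neg_of_lt h1)),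 mul_nonneg_of_nonpos_of_nonpos (Mathlib.Tactic.Linarith.sub_nonpos_of_le hηβ) (Mathlib.Tactic.Linarith.sub_nonpos_of_le e3.right), Mathlib.Tactic.Linarith.mul_zero_eq (Mathlib.Tactic.Linarith.sub_neg_of_lt h1) (sub_eq_zero_of_eq hsβ), Mathlib.Tactic.Linarith.mul_zero_eq (Mathlib.Tactic.Linarith.sub_neg_of_lt h2) (sub_eq_zero_of_eq hsβ), Mathlib.Tactic.Linarith.zero_mul_eq (sub_eq_zero_of_eq hsβ) (Mathlib.Tactic.Linarith.sub_nonpos_of_le e3.left)])
    exact lt_of_mul_lt_mul_left e6 hs0.le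
  · have e7 : ‖u' - x‖ ≤ η + 4 * s := by
      have e8 : ‖u' - u‖ = 1 - ‖u‖ := by
        have : u' - u = (1 - ‖u‖) • u' := by rw [sub_smul, one_smul, ← huu']
        rw [this, norm_smul, hu'1, mul_one, Real.norm_of_nonneg (by linarith only [hN1])]
      have e9 : ‖u - x‖ ≤ 2 * s := by
        have : u - x = s • (xj - x) := by rw [hu]; module
        rw [this, norm_smul, Real.norm_of_nonneg hs0.le, mul_comm]
        have := norm_sub_le xj x
        gcongr; linarith only [hx, hxj, this]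
      have := norm_sub_le_norm_sub_add_norm_sub u' u x
      linarith only [hN3, e8, e9, this]
    have e10 := (abs_le.1 (hB.abs_le (u' - x) φ)).1
    rw [map_sub, LinearMap.sub_apply] at e10
    have e12 : 16 * η / β = 4 * s := by rw [hs]; ring
    have e13 : ‖u' - x‖ * ‖φ‖ ≤ (η + 4 * s) * M :=
      mul_le_mul e7 hφ (norm_nonneg _) (by positivity)
    rw [e12]
    linarith only [hx'2, e10, e13]

/-- A slice of a weighted sum of almost norming functionals controls each of them. -/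
theorem sum_control (hB : Norming B) {ι : Type} [Fintype ι] (ψ : ι → Y) (hψ : ∀ i, ‖ψ i‖ ≤ 1)
    {x x' : X} (hx : ‖x‖ ≤ 1) (hx' : ‖x'‖ ≤ 1) {y₀ : Y} (hy₀ : ‖y₀‖ ≤ 1) {θ η D : ℝ}
    (hθ : 0 < θ) (h1 : ∀ i, 1 - η ≤ B x (ψ i))
    (h2 : B x (θ • y₀ + ∑ i, ψ i) - D < B x' (θ • y₀ + ∑ i, ψ i)) :
    (∀ i, 1 - (Fintype.card ι * η + D + 2 * θ) < B x' (ψ i)) ∧
      θ * B x y₀ - (Fintype.card ι * η + D) < θ * B x' y₀ := by
  simp only [map_add, map_smul, map_sum, smul_eq_mul] at h2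
  have a0 : ∀ i, 0 ≤ 1 - B x' (ψ i) := fun i => by
    have := (abs_le.1 (hB.abs_le_one hx' (hψ i))).2
    linarith
  have a1 : ∑ i, (1 - B x' (ψ i)) = Fintype.card ι - ∑ i, B x' (ψ i) := by
    rw [Finset.sum_sub_distrib]; simp
  have a2 : Fintype.card ι * (1 - η) ≤ ∑ i, B x (ψ i) := by
    have := Finset.sum_le_sum fun i (_ : i ∈ Finset.univ) => h1 i
    rwa [Finset.sum_const, Finset.card_univ, nsmul_eq_mul] at this
  have a3 : 0 ≤ ∑ i, (1 - B x' (ψ i)) := Finset.sum_nonneg fun i _ => a0 i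
  have b1 := abs_le.1 (hB.abs_le_one hx hy₀)
  have b2 := abs_le.1 (hB.abs_le_one hx' hy₀)
  refine ⟨fun i => ?_, by linarith only [h2, a1, a2, a3]⟩
  have a4 : 1 - B x' (ψ i) ≤ ∑ i, (1 - B x' (ψ i)) :=
    Finset.single_le_sum (f := fun i => 1 - B x' (ψ i)) (fun i _ => a0 i) (Finset.mem_univ i)
  linarith only [h2, a1, a2, a4, hθ, b1, b2, mul_nonneg_of_nonpos_of_nonpos (le_of_lt (Mathlib.Tactic.Linarith.sub_neg_of_lt hθ)) (Mathlib.Tactic.Linarith.sub_nonpos_of_le b1.left), mul_nonneg_of_nonpos_of_nonpos (le_of_lt (Mathlib.Tactic.Linarith.sub_neg_of_lt hθ)) (Mathlib.Tactic.Linarith.sub_nonpos_of_le b2.right)]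

theorem slice_iterate (hB : Norming B) (hD : SliceDelta B) {κ : Type} [Fintype κ] (xs : κ → X)
    (hxs : ∀ i, ‖xs i‖ ≤ 1) (α : κ → ℝ) {β : ℝ} (hβ : 0 < β) {y₀ : Y} (hy₀ : ‖y₀‖ ≤ 1)
    (J : Finset κ) : ∀ η > 0, ∃ t > 0, ∀ (x₀ : X) (z : κ → Y), ‖x₀‖ ≤ 1 → (∀ i, ‖z i‖ ≤ 1) →
      (∀ i, 1 - t < B x₀ (z i)) → (∀ i, α i + β < B (xs i) (z i)) →
      ∃ (x : X) (γ : κ → Y), ‖x‖ ≤ 1 ∧ (∀ i, ‖γ i‖ ≤ 1) ∧
        (∀ i ∈ J, B x (γ i) < -1 + η ∧ α i < B (xs i) (γ i)) ∧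
        (∀ i, 1 - η < B x (z i)) ∧ B x₀ y₀ - η < B x y₀ := by
  classical
  induction J using Finset.induction_on with
  | empty =>
    intro η hη
    exact ⟨η, hη, fun x₀ z hx₀ _ h1 _ => ⟨x₀, 0, hx₀, by simp, by simp, h1, by linarith⟩⟩
  | insert j J hj ih =>
    intro η hη
    set θ := η / 4 with hθ
    have hθ0 : 0 < θ := by positivity
    set N : ℝ := (Fintype.card (κ ⊕ κ) : ℝ) with hN
    have hN0 : 0 ≤ N := Nat.cast_nonneg _
    obtain ⟨η', h0, h1, h2, h3, h3', h3''⟩ : ∃ η' > 0, η' ≤ 1 / 4 ∧ 16 * η' ≤ β ∧ η' ≤ η / 2 ∧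
        N * η' + ((η' + 16 * η' / β) * (θ + N) + η') ≤ η / 2 ∧
        N * η' + ((η' + 16 * η' / β) * (θ + N) + η') ≤ θ * (η / 2) := by
      set K := N + ((1 + 16 / β) * (θ + N) + 1) with hK
      have hK0 : 0 < K := by positivity
      have hE : ∀ e : ℝ, N * e + ((e + 16 * e / β) * (θ + N) + e) = e * K := fun e => by
        rw [hK]; ring
      set m := min (η / 2) (θ * (η / 2)) with hm
      have hm0 : 0 < m := lt_min (by positivity) (by positivity)
      have key : ∀ e : ℝ, e ≤ m / K → e * K ≤ m := fun e he => (le_div_iff₀ hK0).1 he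
      refine ⟨min (min (1 / 4) (β / 16)) (min (η / 2) (m / K)), by positivity,
        (min_le_left _ _).trans (min_le_left _ _), ?_,
        (min_le_right _ _).trans (min_le_left _ _), ?_, ?_⟩
      · have := (min_le_left (min (1 / 4) (β / 16)) (min (η / 2) (m / K))).trans
          (min_le_right _ _)
        linarith only [this]
      · rw [hE]
        exact (key _ ((min_le_right _ _).trans (min_le_right _ _))).trans (min_le_left _ _)
      · rw [hE]
        exact (key _ ((min_le_right _ _).trans (min_le_right _ _))).trans (min_le_right _ _)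
    obtain ⟨t, ht, H⟩ := ih η' h0
    refine ⟨t, ht, fun x₀ z hx₀ hz h4 h5 => ?_⟩
    obtain ⟨x, γ, hx, hγ, h6, h7, h8⟩ := H x₀ z hx₀ hz h4 h5
    let ψ : κ ⊕ κ → Y := Sum.elim z fun i => if i ∈ J then -γ i else z i
    have hψ1 : ∀ i, ‖ψ i‖ ≤ 1 := by
      rintro (i | i)
      · exact hz i
      · by_cases hi : i ∈ J
        · simpa [ψ, hi] using hγ i
        · simpa [ψ, hi] using hz i
    have hψ2 : ∀ i, 1 - η' ≤ B x (ψ i) := by
      rintro (i | i)
      · exact (h7 i).le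
      · by_cases hi : i ∈ J
        · have := (h6 i hi).1
          simp only [ψ, Sum.elim_inr, if_pos hi, map_neg]
          linarith only [this]
        · simpa [ψ, hi] using (h7 i).le
    have hφ : ‖θ • y₀ + ∑ i, ψ i‖ ≤ θ + N := by
      refine (norm_add_le _ _).trans (add_le_add ?_ ?_)
      · rw [norm_smul, Real.norm_of_nonneg hθ0.le]
        exact mul_le_of_le_one_right hθ0.le hy₀
      · refine (norm_sum_le _ _).trans ?_
        have := Finset.sum_le_sum fun i (_ : i ∈ Finset.univ) => hψ1 i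
        rwa [Finset.sum_const, Finset.card_univ, nsmul_eq_mul, mul_one] at this
    obtain ⟨x', γ', hx', hγ', h9, h10, h11⟩ := slice_step hB hD hx (hxs j) (hz j) h0 hβ h1 h2
      (h7 j) (h5 j) _ hφ
    obtain ⟨h12, h13⟩ := sum_control hB ψ hψ1 hx hx' hy₀ hθ0 hψ2 h11
    rw [← hN] at h12 h13
    refine ⟨x', Function.update γ j γ', hx', fun i => ?_, fun i hi => ?_, fun i => ?_, ?_⟩
    · by_cases hij : i = j
      · subst hij; simpa using hγ'
      · simpa [hij] using hγ i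
    · by_cases hij : i = j
      · subst hij
        simp only [Function.update_self]
        exact ⟨by linarith only [hθ, hθ0, h3, h9], h10⟩
      · have hiJ : i ∈ J := (Finset.mem_insert.1 hi).resolve_left hij
        simp only [Function.update_of_ne hij]
        have := h12 (Sum.inr i)
        simp only [ψ, Sum.elim_inr, if_pos hiJ, map_neg] at this
        exact ⟨by linarith only [hθ, h3', this], (h6 i hiJ).2⟩
    · have := h12 (Sum.inl i)
      simp only [ψ, Sum.elim_inl] at this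
      linarith only [hθ, h3', this]
    · have h14 : θ * (B x y₀ - η / 2) < θ * B x' y₀ := by linarith only [h3'', h13]
      have := lt_of_mul_lt_mul_left h14 hθ0.le
      linarith only [h3, h8, this]

end Pool.Agent.Work.MP_914893_an
end

-- merged part: Pool.Agent.Work.MP_914893_an.Hedge.Main
section
/-! The diametral property for slices of one space of a norming pair gives the diametral property
for weak neighbourhoods in the other space. -/

open Set Metric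

namespace Pool.Agent.Work.MP_914893_an

variable {X Y : Type*} [NormedAddCommGroup X] [NormedSpace ℝ X] [NormedAddCommGroup Y]
  [NormedSpace ℝ Y] {B : X →ₗ[ℝ] Y →ₗ[ℝ] ℝ}

theorem SliceDelta.flip (hB : Norming B) (hD : SliceDelta B) : SuperDelta B.flip := by
  classical
  intro y₀ hy₀ s hs σ hσ
  obtain ⟨M, hM0, hM⟩ : ∃ M : ℝ, 1 ≤ M ∧ ∀ x ∈ s, ‖x‖ ≤ M := by
    obtain ⟨M, hM⟩ := hs.isBounded.exists_norm_le
    exact ⟨max M 1, le_max_right _ _, fun x hx => (hM x hx).trans (le_max_left _ _)⟩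
  obtain ⟨τ, hτ, hτ1, hτσ⟩ : ∃ τ > 0, τ ≤ 1 / 2 ∧ 4 * M * τ ≤ σ := by
    refine ⟨min (1 / 2) (σ / (4 * M)), by positivity, min_le_left _ _, ?_⟩
    have := min_le_right (1 / 2) (σ / (4 * M))
    rw [le_div_iff₀ (by positivity)] at this
    linarith only [this]
  obtain ⟨xt, hxt1, hxt2⟩ := hB.right y₀ τ hτ
  rw [hy₀] at hxt2
  have : Fintype s := hs.fintype
  let e : Option s → X := fun j => j.elim xt Subtype.val
  have he : ∀ j, ‖e j‖ ≤ M := by
    rintro (_ | j)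
    · exact hxt1.trans hM0
    · exact hM _ j.2
  let T := evalMap B e
  have hT : ∀ y, ‖y‖ ≤ 1 → ‖T y‖ ≤ M := fun y hy =>
    (pi_norm_le_iff_of_nonneg (by linarith only [hM0, hτ, hτ1])).2 fun j => (hB.abs_le_left (e j) hy).trans (he j)
  let K := closure (T '' closedBall 0 1)
  have hKc : IsCompact K := by
    refine Bornology.IsBounded.isCompact_closure (isBounded_iff_forall_norm_le.2 ⟨M, ?_⟩)
    rintro _ ⟨y, hy, rfl⟩
    exact hT y (mem_closedBall_zero_iff.1 hy)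
  have hK : Convex ℝ K := ((convex_closedBall 0 1).linear_image T).closure
  have hTK : ∀ y, ‖y‖ ≤ 1 → T y ∈ K := fun y hy =>
    subset_closure ⟨y, mem_closedBall_zero_iff.2 hy, rfl⟩
  obtain ⟨c₀, hx₀, hmax⟩ := exists_max B e y₀
  set x₀ := ∑ j, c₀ j • e j with hx₀def
  set c := B x₀ y₀ with hc
  have hc1 : c ≤ 1 := (le_abs_self _).trans (hB.abs_le_one hx₀ hy₀.le)
  have hc2 : 1 - τ < c := by
    have h1 := hmax (Pi.single none 1)
    have h2 : ∑ j, (Pi.single none 1 : Option s → ℝ) j • e j = xt := by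
      simp [Pi.single_apply, e]
    rw [h2] at h1
    have h3 : 0 < c * ‖xt‖ := by linarith only [hτ, hτ1, hxt2, h1]
    have h4 : 0 < c := by
      by_contra hneg
      linarith only [hτ1, h1, hτ, hxt2, hneg, norm_nonneg xt, mul_pos_of_neg_of_neg (Mathlib.Tactic.Linarith.sub_neg_of_lt hτ) (Mathlib.Tactic.Linarith.sub_neg_of_lt hτ), mul_nonneg_of_nonpos_of_nonpos (le_of_lt (Mathlib.Tactic.Linarith.sub_neg_of_lt hτ)) (Mathlib.Tactic.Linarith.sub_nonpos_of_le hτ1), mul_pos_of_neg_of_neg (Mathlib.Tactic.Linarith.sub_neg_of_lt hτ) (Mathlib.Tactic.Linarith.sub_neg_of_lt hxt2), mul_nonneg_of_nonpos_of_nonpos (Mathlib.Tactic.Linarith.sub_nonpos_of_le hτ1) (le_of_lt (Mathlib.Tactic.Linarith.sub_neg_of_lt hxt2)), mul_nonneg_of_nonpos_of_nonpos (Mathlib.Tactic.Linarith.sub_nonpos_of_le (le_of_not_gt hneg)) (Mathlib.Tactic.Linarith.sub_nonpos_of_le (norm_nonneg xt))]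
    linarith only [h1, hτ, hxt2, hτ1, hxt1, h4, mul_pos_of_neg_of_neg (Mathlib.Tactic.Linarith.sub_neg_of_lt hτ) (Mathlib.Tactic.Linarith.sub_neg_of_lt hxt2), mul_nonneg_of_nonpos_of_nonpos (Mathlib.Tactic.Linarith.sub_nonpos_of_le hτ1) (le_of_lt (Mathlib.Tactic.Linarith.sub_neg_of_lt hxt2)), mul_nonneg_of_nonpos_of_nonpos (Mathlib.Tactic.Linarith.sub_nonpos_of_le hxt1) (le_of_lt (Mathlib.Tactic.Linarith.sub_neg_of_lt h4))]
  have hc0 : 0 < c := by linarith only [hτ, hτ1, hc2]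
  let a₀ : StrongDual ℝ (Option s → ℝ) := ∑ j, c₀ j • ContinuousLinearMap.proj j
  have ha₀ : ∀ y, a₀ (T y) = B x₀ y := fun y => by
    simp [a₀, T, evalMap, hx₀def]
  have ha₀K : ∀ k ∈ K, a₀ k ≤ 1 := by
    refine closure_minimal (t := {k | a₀ k ≤ 1}) ?_ (isClosed_le a₀.continuous continuous_const)
    rintro _ ⟨y, hy, rfl⟩
    rw [mem_ofPred_eq, ha₀]
    exact (le_abs_self _).trans (hB.abs_le_one hx₀ (mem_closedBall_zero_iff.1 hy))
  set q := c⁻¹ • T y₀ with hq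
  have hqK : q ∈ K := by
    by_contra hcon
    obtain ⟨a, u, h1, h2⟩ := geometric_hahn_banach_closed_point hK isClosed_closure hcon
    have h3 : ‖vecOf e a‖ ≤ u := by
      refine le_of_forall_pos_lt_add fun δ hδ => ?_
      obtain ⟨y, hy1, hy2⟩ := hB.left (vecOf e a) δ hδ
      rw [vecOf_spec] at hy2
      linarith only [hy2, h1, hTK, hy1, h1 _ (hTK y hy1)]
    have h4 : B (vecOf e a) y₀ ≤ c * ‖vecOf e a‖ := hmax _
    rw [hq, map_smul, smul_eq_mul, ← vecOf_spec B e a, lt_inv_mul_iff₀ hc0] at h2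
    linarith only [h3, h4, hτ, h2, hτ1, hc2, mul_pos_of_neg_of_neg (Mathlib.Tactic.Linarith.sub_neg_of_lt hτ) (Mathlib.Tactic.Linarith.sub_neg_of_lt h2), mul_nonneg_of_nonpos_of_nonpos (Mathlib.Tactic.Linarith.sub_nonpos_of_le hτ1) (le_of_lt (Mathlib.Tactic.Linarith.sub_neg_of_lt h2)), mul_nonneg_of_nonpos_of_nonpos (Mathlib.Tactic.Linarith.sub_nonpos_of_le hτ1) (Mathlib.Tactic.Linarith.sub_nonpos_of_le h3), mul_nonneg_of_nonpos_of_nonpos (le_of_lt (Mathlib.Tactic.Linarith.sub_neg_of_lt hc2)) (Mathlib.Tactic.Linarith.sub_nonpos_of_le h3)]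
  have ha₀q : a₀ q = 1 := by
    rw [hq, map_smul, ha₀, smul_eq_mul, inv_mul_cancel₀ hc0.ne']
  obtain ⟨κ, _, w, h, a, α, hw0, hw1, hhK, hh₀, hdist, hα, hslice⟩ :=
    exists_slices hKc hK a₀ hqK (fun k hk => by rw [ha₀q]; exact ha₀K k hk) hτ
  rw [ha₀q] at hh₀
  let r : κ → ℝ := fun i => (‖vecOf e (a i)‖ + 1)⁻¹
  have hr : ∀ i, 0 < r i := fun i => by positivity
  let xs : κ → X := fun i => r i • vecOf e (a i)
  have hxs : ∀ i, ‖xs i‖ ≤ 1 := fun i => by
    rw [norm_smul, Real.norm_of_nonneg (hr i).le, inv_mul_le_iff₀ (by positivity)]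
    linarith only [hτ, hτ1]
  have hxsB : ∀ i y, B (xs i) y = r i * a i (T y) := fun i y => by
    rw [← vecOf_spec B e (a i)]; simp [xs]
  obtain ⟨β, hβ, hβ'⟩ : ∃ β > 0, ∀ i, r i * α i + β < r i * a i (h i) := by
    have h1 : ∀ i, ∀ᶠ β in nhdsWithin (0 : ℝ) (Ioi 0), r i * α i + β < r i * a i (h i) := by
      intro i
      refine mem_nhdsWithin_of_mem_nhds ?_
      refine (isOpen_lt (by fun_prop) continuous_const).mem_nhds ?_
      simpa using mul_lt_mul_of_pos_left (hα i) (hr i)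
    obtain ⟨β, h2, h3⟩ := ((Filter.eventually_all.2 h1).and self_mem_nhdsWithin).exists
    exact ⟨β, h3, h2⟩
  obtain ⟨t, ht, H⟩ := slice_iterate hB hD xs hxs (fun i => r i * α i) hβ hy₀.le Finset.univ τ hτ
  have hz : ∀ i, ∃ z : Y, ‖z‖ ≤ 1 ∧ 1 - t < B x₀ z ∧ r i * α i + β < B (xs i) z := by
    intro i
    have hopen : IsOpen {k : Option s → ℝ | 1 - t < a₀ k ∧ r i * α i + β < r i * a i k} :=
      (isOpen_lt continuous_const a₀.continuous).inter 
        (isOpen_lt continuous_const (continuous_const.mul (a i).continuous))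
    obtain ⟨_, ⟨h1, h2⟩, y, hy, rfl⟩ := _root_.mem_closure_iff.1 (hhK i) _ hopen
      ⟨by linarith only [ht, hh₀, hh₀ i], hβ' i⟩
    exact ⟨y, mem_closedBall_zero_iff.1 hy, by rwa [← ha₀], by rwa [hxsB]⟩
  choose z hz1 hz2 hz3 using hz
  obtain ⟨x, γ, hx, hγ, h1, -, h2⟩ := H x₀ z hx₀ hz1 hz2 hz3
  have hγ' : ∀ i, dist (T (γ i)) (h i) < τ := fun i => by
    refine hslice i _ (hTK _ (hγ i)) ?_
    have := (h1 i (Finset.mem_univ i)).2
    rw [hxsB] at this
    exact lt_of_mul_lt_mul_left this (hr i).le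
  set g := ∑ i, w i • γ i with hg
  have hg1 : ‖g‖ ≤ 1 := by
    refine (norm_sum_le _ _).trans ?_
    rw [← hw1]
    refine Finset.sum_le_sum fun i _ => ?_
    rw [norm_smul, Real.norm_of_nonneg (hw0 i)]
    exact mul_le_of_le_one_right (hw0 i) (hγ i)
  refine ⟨g, hg1, fun v hv => ?_, ?_⟩
  · have e1 : ‖T g - ∑ i, w i • h i‖ ≤ τ := by
      rw [hg, map_sum, ← Finset.sum_sub_distrib]
      refine (norm_sum_le _ _).trans ?_
      calc ∑ i, ‖T (w i • γ i) - w i • h i‖ ≤ ∑ i, w i * τ := by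
            refine Finset.sum_le_sum fun i _ => ?_
            rw [map_smul, ← smul_sub, norm_smul, Real.norm_of_nonneg (hw0 i), ← dist_eq_norm]
            exact mul_le_mul_of_nonneg_left (hγ' i).le (hw0 i)
        _ = τ := by rw [← Finset.sum_mul, hw1, one_mul]
    have e2 : ‖q - T y₀‖ ≤ 2 * τ * M := by
      have e3 : q - T y₀ = (c⁻¹ - 1) • T y₀ := by rw [hq, sub_smul, one_smul]
      have e4 : 0 ≤ c⁻¹ - 1 := sub_nonneg.2 ((one_le_inv₀ hc0).2 hc1)
      have e5 : c⁻¹ - 1 ≤ 2 * τ := by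
        rw [sub_le_iff_le_add, inv_le_iff_one_le_mul₀ hc0]
        linarith only [hc2, hτ, hτ1, mul_nonneg_of_nonpos_of_nonpos (le_of_lt (Mathlib.Tactic.Linarith.sub_neg_of_lt hτ)) (Mathlib.Tactic.Linarith.sub_nonpos_of_le hτ1), mul_pos_of_neg_of_neg (Mathlib.Tactic.Linarith.sub_neg_of_lt hτ) (Mathlib.Tactic.Linarith.sub_neg_of_lt hc2)]
      rw [e3, norm_smul, Real.norm_of_nonneg e4]
      exact mul_le_mul e5 (hT y₀ hy₀.le) (norm_nonneg _) (by positivity)
    rw [dist_eq_norm] at hdist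
    have e6 := norm_sub_le_norm_sub_add_norm_sub (T g) (∑ i, w i • h i) q
    have e7 := norm_sub_le_norm_sub_add_norm_sub (T g) q (T y₀)
    have e8 : |B v g - B v y₀| ≤ ‖T g - T y₀‖ := norm_le_pi_norm (T g - T y₀) (some ⟨v, hv⟩)
    change |B v g - B v y₀| < σ
    linarith only [hτσ, hdist, e1, e2, e6, e7, e8, hM0, hτ, mul_nonneg_of_nonpos_of_nonpos (Mathlib.Tactic.Linarith.sub_nonpos_of_le hM0) (le_of_lt (Mathlib.Tactic.Linarith.sub_neg_of_lt hτ))]
  · have e1 : B x g ≤ -1 + τ := by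
      rw [hg, map_sum]
      calc ∑ i, B x (w i • γ i) ≤ ∑ i, w i * (-1 + τ) := by
            refine Finset.sum_le_sum fun i _ => ?_
            rw [map_smul, smul_eq_mul]
            exact mul_le_mul_of_nonneg_left (h1 i (Finset.mem_univ i)).1.le (hw0 i)
        _ = -1 + τ := by rw [← Finset.sum_mul, hw1, one_mul]
    have e2 := (le_abs_self _).trans (hB.flip.abs_le_left (y₀ - g) hx)
    rw [LinearMap.flip_apply, map_sub] at e2
    linarith only [hτ, hτσ, hc2, h2, e1, e2, hM0, mul_nonneg_of_nonpos_of_nonpos (Mathlib.Tactic.Linarith.sub_nonpos_of_le hM0) (le_of_lt (Mathlib.Tactic.Linarith.sub_neg_of_lt hτ))]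

end Pool.Agent.Work.MP_914893_an
end

-- merged part: Pool.Agent.Work.MP_914893_an.Hedge.Final
section
/-! The slice property of a space is equivalent to the weak-star diametral property of its dual. -/

open Set Metric

namespace Pool.Agent.Work.MP_914893_an

variable (X : Type*) [NormedAddCommGroup X] [NormedSpace ℝ X]

theorem dld2p_iff_sliceDelta : DLD2P X ↔ SliceDelta (topDualPairing ℝ X).flip := by
  constructor
  · intro h x hx f a ha σ hσ
    change a < f x at ha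
    rcases eq_or_ne f 0 with rfl | hf
    · refine ⟨-x, by simpa using hx.le, by simpa using ha, ?_⟩
      rw [sub_neg_eq_add, ← two_smul ℝ x, norm_smul, hx]
      simpa using hσ
    · have hb : BddAbove (f '' closedBall 0 1) := by
        refine ⟨‖f‖, ?_⟩
        rintro _ ⟨v, hv, rfl⟩
        exact (le_abs_self _).trans (f.unit_le_opNorm v (mem_closedBall_zero_iff.1 hv))
      have hle : f x ≤ sSup (f '' closedBall 0 1) :=
        le_csSup hb ⟨x, mem_closedBall_zero_iff.2 hx.le, rfl⟩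
      obtain ⟨y, ⟨hy1, hy2⟩, hy3⟩ := h f hf (sSup (f '' closedBall 0 1) - a) (by linarith) x
        ⟨hx.le, by simpa using ha⟩ hx σ hσ
      exact ⟨y, hy1, by simpa using hy2, hy3⟩
  · intro h f _ α _ x hx hx1 ε hε
    obtain ⟨y, hy1, hy2, hy3⟩ := h x hx1 f _ hx.2 ε hε
    exact ⟨y, ⟨hy1, hy2⟩, hy3⟩

theorem dld2p_iff : DLD2P X ↔ WeakStarDD2P X := by
  have h2 : WeakStarDD2P X ↔ SuperDelta (topDualPairing ℝ X) := superDelta_iff _
  rw [dld2p_iff_sliceDelta, h2]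
  exact ⟨fun h => h.flip (norming_dual X).flip,
    fun h => (h.sliceDelta.flip (norming_dual X)).sliceDelta⟩

end Pool.Agent.Work.MP_914893_an
end
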